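import Pool.Agent.Helper27.EB.Bern
import Pool.Agent.Helper27.EB.BallIso
import Pool.Agent.Helper27.EB.GridFin

/-!
# Project BM (MP_eb515b_lc): from a Bernoulli solution to an almost surely allowed labelling
-/

set_option autoImplicit false

namespace BMP

open EB MeasureTheory Filter

/-- A Bernoulli solution gives a labelling of the whole space whose orbit labellings are almost surely allowed. -/
theorem extract {d : ℕ} {S : Type} [Nonempty S] (L : LCL S) (h : BernSol d L) :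
    ∃ φ : Om d → S, Ms φ ∧
      ∀ᵐ x ∂bern d, ∀ v, Allowed d L fun b : ball (grid d) L.r 0 => φ (sh (b.1 + v) x) := by
  classical
  obtain ⟨C, hCm, hCi, hCl, f, hf, hsol⟩ := h
  rw [sol_iff (fshift d) L C hCi f] at hsol
  obtain ⟨s0⟩ := ‹Nonempty S›
  obtain ⟨φ, hφ⟩ : ∃ φ : Om d → S, φ = fun x =>
      if h : ∃ hx : x ∈ FP d, (⟨x, hx⟩ : FP d) ∈ C then f ⟨⟨x, h.1⟩, h.2⟩ else s0 := ⟨_, rfl⟩
  have hφ1 : ∀ y : C, φ y.1.1 = f y := by
    intro y
    rw [hφ]
    exact dif_pos ⟨y.1.2, y.2⟩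
  have hφ0 : ∀ x, x ∉ Subtype.val '' C → φ x = s0 := by
    intro x hx
    rw [hφ]
    refine dif_neg ?_
    rintro ⟨h1, h2⟩
    exact hx ⟨⟨x, h1⟩, h2, rfl⟩
  have hCm' : MeasurableSet (Subtype.val '' C : Set (Om d)) := (FP_meas d).subtype_image hCm
  have hφm : Ms φ := by
    intro s
    have h1 : {x | φ x = s} = (Subtype.val '' (Subtype.val '' {y : C | f y = s})) ∪
        ((Subtype.val '' C)ᶜ ∩ {_x : Om d | s0 = s}) := by
      ext x
      simp only [Set.mem_union, Set.mem_inter_iff, Set.mem_compl_iff, Set.mem_ofPred_eq]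
      constructor
      · intro hx
        by_cases h : x ∈ Subtype.val '' C
        · left
          obtain ⟨y, hy, rfl⟩ := h
          refine ⟨y, ⟨⟨y, hy⟩, ?_, rfl⟩, rfl⟩
          have := hφ1 ⟨y, hy⟩
          exact this.symm.trans hx
        · right
          exact ⟨h, (hφ0 x h).symm.trans hx⟩
      · rintro (⟨_, ⟨y, hy, rfl⟩, rfl⟩ | ⟨h, h0⟩)
        · exact (hφ1 y).trans hy
        · rw [hφ0 x h]
          exact h0
    rw [h1]
    refine ((FP_meas d).subtype_image (hCm.subtype_image (hf s))).union (hCm'.compl.inter ?_)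
    exact MeasurableSet.const _
  refine ⟨φ, hφm, ?_⟩
  have hCl' : ∀ᵐ x ∂bern d, x ∈ (Subtype.val '' C : Set (Om d)) := mem_ae_iff.2 hCl
  filter_upwards [hCl'] with x hx
  obtain ⟨y, hy, rfl⟩ := hx
  intro v
  have hv := hCi v y hy
  have h1 := hsol ⟨(fshift d).T v y, hv⟩
  have h2 : (fun b : ball (grid d) L.r 0 => φ (sh (b.1 + v) y.1)) =
      fun b : ball (grid d) L.r 0 =>
        f ⟨(fshift d).T b.1 ((fshift d).T v y), hCi b.1 _ hv⟩ := by
    funext b
    rw [← hφ1]
    show φ (sh (b.1 + v) y.1) = φ (sh b.1 (sh v y.1))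
    rw [← sh_add]
  show Allowed d L _
  rw [h2]
  exact h1

end BMP
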