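import Pool.Agent.Helper13.BM.Moat
import Pool.Agent.Helper27.EB.Mix2M

/-!
# Project BM (MP_eb515b_lc): the measure part

Ergodicity of every nonzero shift for the Bernoulli measure, monotone sets, Borel-Cantelli for the moats.
-/

set_option autoImplicit false

namespace BMP

open EB MeasureTheory NIC Filter

/-- every nonzero shift is ergodic -/
theorem erg {d : ℕ} {t : Gd d} (ht : t ≠ 0) {F : Om d → Bool} (hF : Ms F)
    (h : ∀ᵐ x ∂bern d, F (sh t x) = F x) : ∃ c, ∀ᵐ x ∂bern d, F x = c := by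
  obtain ⟨M, hM⟩ := mix2_bern d F hF
  have hn : ∀ n : ℕ, ∀ᵐ x ∂bern d, F (sh (n • t) x) = F x := by
    intro n
    induction n with
    | zero => simp [sh_zero]
    | succ n ih =>
      have h1 := (bern_inv d (n • t)).quasiMeasurePreserving.tendsto_ae h
      filter_upwards [ih, h1] with x h2 h3
      rw [succ_nsmul', sh_add]
      rw [← h2]
      exact h3
  obtain ⟨i, hi⟩ : ∃ i, t i ≠ 0 := by
    by_contra hcon
    push Not at hcon
    exact ht (funext hcon)
  have hg : ¬ nb M ((M + 1) • t) := by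
    intro h1
    have h2 := h1 i
    have h3 : ((M + 1) • t) i = ((M : ℤ) + 1) * t i := by
      simp
    rw [h3, abs_mul] at h2
    have h4 : 1 ≤ |t i| := Int.one_le_abs hi
    have h5 : |(M : ℤ) + 1| = (M : ℤ) + 1 := abs_of_nonneg (by positivity)
    rw [h5] at h2
    nlinarith
  by_contra hcon
  push Not at hcon
  have h1 : ∃ᶠ x in ae (bern d), F x = true := by
    have := hcon false
    exact this.mono fun x hx => by
      cases h : F x
      · exact absurd h hx
      · rfl
  have h2 : ∃ᶠ x in ae (bern d), F x = false := by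
    have := hcon true
    exact this.mono fun x hx => by
      cases h : F x
      · rfl
      · exact absurd h hx
  obtain ⟨x, ⟨h3, h4⟩, h5⟩ := ((hM true false _ hg h1 h2).and_eventually (hn (M + 1))).exists
  rw [h4, h3] at h5
  exact absurd h5 (by decide)

/-- a set which is mapped into itself by a nonzero shift is null or conull -/
theorem mono_null {d : ℕ} {t : Gd d} (ht : t ≠ 0) {R : Set (Om d)} (hR : MeasurableSet R)
    (h : ∀ x, x ∈ R → sh t x ∈ R) : (∀ᵐ x ∂bern d, x ∉ R) ∨ ∀ᵐ x ∂bern d, x ∈ R := by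
  classical
  have h1 : R =ᵐ[bern d] (sh t ⁻¹' R : Set (Om d)) := by
    refine ae_eq_of_subset_of_measure_ge (fun x hx => h x hx) ?_ hR.nullMeasurableSet
      (measure_ne_top _ _)
    exact ((bern_inv d t).measure_preimage hR.nullMeasurableSet).le
  have hF : Ms fun x : Om d => decide (x ∈ R) := by
    intro c
    cases c
    · have : {x : Om d | decide (x ∈ R) = false} = Rᶜ := by
        ext x
        simp
      rw [this]
      exact hR.compl
    · have : {x : Om d | decide (x ∈ R) = true} = R := by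
        ext x
        simp
      rw [this]
      exact hR
  obtain ⟨c, hc⟩ := erg ht hF (by
    filter_upwards [h1] with x hx
    have hx' : x ∈ R ↔ sh t x ∈ R := iff_of_eq hx
    simp only [hx'])
  cases c
  · left
    filter_upwards [hc] with x hx
    simpa using hx
  · right
    filter_upwards [hc] with x hx
    simpa using hx

/-- an almost sure statement holds along the orbit -/
theorem ae_orbit {d : ℕ} {p : Om d → Prop} (h : ∀ᵐ x ∂bern d, p x) :
    ∀ᵐ x ∂bern d, ∀ g, p (sh g x) := by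
  rw [ae_all_iff]
  intro g
  exact (bern_inv d g).quasiMeasurePreserving.tendsto_ae h

/-- Borel-Cantelli: disjoint translates -/
theorem bc {d : ℕ} (A : ℕ → Set (Om d)) (hA : ∀ k, MeasurableSet (A k)) (g : ℕ → Gd d)
    (hd : Pairwise (Function.onFun Disjoint fun k => sh (g k) ⁻¹' A k)) :
    ∀ᵐ x ∂bern d, ∀ᶠ k in atTop, x ∉ A k := by
  refine ae_eventually_notMem ?_
  have h1 : ∑' k, bern d (A k) = ∑' k, bern d (sh (g k) ⁻¹' A k) := by
    refine tsum_congr fun k => ?_
    exact ((bern_inv d (g k)).measure_preimage (hA k).nullMeasurableSet).symm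
  rw [h1, ← measure_iUnion hd fun k => sh_meas (g k) (hA k)]
  exact measure_ne_top _ _

/-- the row of moat labels at a point of the space -/
def Row {d : ℕ} (Q : Om d → Option (ZMod 3)) (s : Gd d) (k : ℕ) : Set (Om d) :=
  {x | Q (sh (k • s) x) = none ∧ ∀ i : ℕ, i ≤ k → Q (sh ((k + 1 + i) • s) x) = some (i : ZMod 3)}

theorem row_meas {d : ℕ} {Q : Om d → Option (ZMod 3)} (hQ : Ms Q) (s : Gd d) (k : ℕ) :
    MeasurableSet (Row Q s k) := by
  have h : Row Q s k = {x | Q (sh (k • s) x) = none} ∩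
      ⋂ i : ℕ, ⋂ _ : i ≤ k, {x | Q (sh ((k + 1 + i) • s) x) = some (i : ZMod 3)} := by
    ext x
    simp [Row]
  rw [h]
  exact (hQ.precomp (sh_meas _) _).inter (MeasurableSet.iInter fun i => MeasurableSet.iInter fun _ =>
    hQ.precomp (sh_meas _) _)

theorem row_bc {d : ℕ} {Q : Om d → Option (ZMod 3)} (hQ : Ms Q) (s : Gd d) :
    ∀ᵐ x ∂bern d, ∀ᶠ k in atTop, x ∉ Row Q s k := by
  refine bc _ (row_meas hQ s) (fun k => -((2 * k + 1) • s)) ?_
  have key : ∀ k k' : ℕ, k < k' → ∀ x : Om d,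
      sh (-((2 * k + 1) • s)) x ∈ Row Q s k → sh (-((2 * k' + 1) • s)) x ∉ Row Q s k' := by
    intro k k' hkk x h1 h2
    have h3 := h1.1
    have h4 := h2.2 (k' - k - 1) (by omega)
    rw [← sh_add] at h3 h4
    have e : (k' + 1 + (k' - k - 1)) • s + -((2 * k' + 1) • s) = k • s + -((2 * k + 1) • s) := by
      have e1 : (k' + 1 + (k' - k - 1)) • s = (2 * k' + 1) • s - (k + 1) • s := by
        rw [eq_sub_iff_add_eq, ← add_smul]
        congr 1
        omega
      have e2 : (2 * k + 1) • s = k • s + (k + 1) • s := by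
        rw [← add_smul]
        congr 1
        omega
      rw [e1, e2]
      abel
    rw [e, h3] at h4
    exact absurd h4 (by simp)
  intro k k' hne
  rw [Function.onFun, Set.disjoint_left]
  intro x h1 h2
  rcases lt_or_gt_of_ne hne with h | h
  · exact key k k' h x h1 h2
  · exact key k' k h x h2 h1

/-! ### The core -/

/-- the position `(u, v)` in the plane spanned by two axes -/
def pos {d : ℕ} (a b : Gd d) (u v : ℤ) : Gd d := u • a + v • b

theorem pos_add {d : ℕ} (a b : Gd d) (u v u' v' : ℤ) :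
    pos a b u v + pos a b u' v' = pos a b (u + u') (v + v') := by
  unfold pos
  rw [add_smul, add_smul]
  abel

/-- the first labels on the plane -/
def Ll {d : ℕ} (φ : Om d → ZMod 3 × Bool × Option (ZMod 3)) (a b : Gd d) (x : Om d) (u v : ℤ) :
    ZMod 3 := (φ (sh (pos a b u v) x)).1

/-- the second labels on the plane -/
def Lb {d : ℕ} (φ : Om d → ZMod 3 × Bool × Option (ZMod 3)) (a b : Gd d) (x : Om d) (u v : ℤ) :
    Bool := (φ (sh (pos a b u v) x)).2.1

/-- the third labels on the plane -/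
def Lq {d : ℕ} (φ : Om d → ZMod 3 × Bool × Option (ZMod 3)) (a b : Gd d) (x : Om d) (u v : ℤ) :
    Option (ZMod 3) := (φ (sh (pos a b u v) x)).2.2

section

variable {d : ℕ} {φ : Om d → ZMod 3 × Bool × Option (ZMod 3)} {a b : Gd d}

theorem sh_pos (x : Om d) (u v u' v' : ℤ) :
    sh (pos a b u v) (sh (pos a b u' v') x) = sh (pos a b (u' + u) (v' + v)) x := by
  rw [← sh_add, pos_add, add_comm u, add_comm v]

theorem Ll_sh (x : Om d) (u v u' v' : ℤ) :
    Ll φ a b (sh (pos a b u' v') x) u v = Ll φ a b x (u' + u) (v' + v) := by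
  unfold Ll
  rw [sh_pos]

theorem Lb_sh (x : Om d) (u v u' v' : ℤ) :
    Lb φ a b (sh (pos a b u' v') x) u v = Lb φ a b x (u' + u) (v' + v) := by
  unfold Lb
  rw [sh_pos]

theorem Ll_meas (hφ : Ms φ) (u v : ℤ) : Ms fun x => Ll φ a b x u v :=
  (hφ.precomp (sh_meas _)).comp fun s => s.1

theorem Lb_meas (hφ : Ms φ) (u v : ℤ) : Ms fun x => Lb φ a b x u v :=
  (hφ.precomp (sh_meas _)).comp fun s => s.2.1

theorem dH_sh (x : Om d) (u v u' v' s t : ℤ) (p p' : ℕ) :
    dH (Ll φ a b (sh (pos a b u' v') x)) u v s t p p' =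
      dH (Ll φ a b x) (u' + u) (v' + v) s t p p' := by
  unfold dH
  simp only [Ll_sh, add_assoc]

theorem top_sh (x : Om d) (u v u' v' : ℤ) :
    Top (Ll φ a b (sh (pos a b u' v') x)) u v ↔ Top (Ll φ a b x) (u' + u) (v' + v) := by
  unfold Top
  simp only [dH_sh]

theorem top_meas (hφ : Ms φ) (u v : ℤ) : MeasurableSet {x | Top (Ll φ a b x) u v} := by
  have h : {x | Top (Ll φ a b x) u v} = ⋂ s : ℤ, ⋂ t : ℤ, ⋂ _ : Sg s, ⋂ _ : Sg t, ⋂ p : ℕ,
      ⋂ p' : ℕ, {x | dH (Ll φ a b x) u v s t p p' ≤ 0} := by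
    ext x
    simp [Top]
  rw [h]
  refine MeasurableSet.iInter fun s => MeasurableSet.iInter fun t => MeasurableSet.iInter fun _ =>
    MeasurableSet.iInter fun _ => MeasurableSet.iInter fun p => MeasurableSet.iInter fun p' => ?_
  have hM : Ms fun x => dH (Ll φ a b x) u v s t p p' := by
    unfold dH
    refine (Ms.sum _ fun i _ => ?_).map2 (Ms.sum _ fun i _ => ?_) fun m n => m + n
    · exact (Ll_meas hφ _ _).map2 (Ll_meas hφ _ _) fun m n => dl (m - n)
    · exact (Ll_meas hφ _ _).map2 (Ll_meas hφ _ _) fun m n => dl (m - n)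
  exact hM.set {n | n ≤ 0}

theorem pos_zero : pos a b 0 0 = 0 := by
  simp [pos]

theorem pos_na (u v τ : ℤ) (j : ℕ) : pos a b u v + j • (τ • a) = pos a b (u + τ * j) v := by
  unfold pos
  rw [add_smul, mul_comm, mul_smul, natCast_zsmul]
  abel

theorem pos_nb (u v τ : ℤ) (j : ℕ) : pos a b u v + j • (τ • b) = pos a b u (v + τ * j) := by
  unfold pos
  rw [add_smul v, mul_comm, mul_smul, natCast_zsmul]
  abel

theorem pos_sa (u v σ : ℤ) : σ • a + pos a b u v = pos a b (u + σ) v := by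
  unfold pos
  rw [add_smul]
  abel

theorem pos_sb (u v σ : ℤ) : σ • b + pos a b u v = pos a b u (v + σ) := by
  unfold pos
  rw [add_smul]
  abel

theorem sg_smul {σ : ℤ} (hσ : Sg σ) {g : Gd d} (hg : g ≠ 0) : σ • g ≠ 0 := by
  rcases hσ with h | h <;> subst h <;> simpa using hg

theorem row_ax {x : Om d} {k : ℕ} {σ : ℤ} (h : Atx (Lq φ a b x) k 0 0 σ) :
    x ∈ Row (fun x => (φ x).2.2) (σ • a) k := by
  have e : ∀ n : ℕ, pos a b (0 + σ * n) 0 = n • (σ • a) := fun n => by
    rw [← pos_na, pos_zero, zero_add]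
  refine ⟨?_, fun i hi => ?_⟩
  · have h1 := h.1
    unfold Lq at h1
    rw [e] at h1
    exact h1
  · have h1 := h.2 i hi
    unfold Lq at h1
    rw [show (0 : ℤ) + σ * ((k : ℤ) + 1 + i) = 0 + σ * ((k + 1 + i : ℕ) : ℤ) by push_cast; ring,
      e] at h1
    exact h1

theorem row_ay {x : Om d} {k : ℕ} {σ : ℤ} (h : Aty (Lq φ a b x) k 0 0 σ) :
    x ∈ Row (fun x => (φ x).2.2) (σ • b) k := by
  have e : ∀ n : ℕ, pos a b 0 (0 + σ * n) = n • (σ • b) := fun n => by
    rw [← pos_nb, pos_zero, zero_add]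
  refine ⟨?_, fun i hi => ?_⟩
  · have h1 := h.1
    unfold Lq at h1
    rw [e] at h1
    exact h1
  · have h1 := h.2 i hi
    unfold Lq at h1
    rw [show (0 : ℤ) + σ * ((k : ℤ) + 1 + i) = 0 + σ * ((k + 1 + i : ℕ) : ℤ) by push_cast; ring,
      e] at h1
    exact h1

/-- the labelling has no almost sure rules of this kind -/
theorem core (ha : a ≠ 0) (hb : b ≠ 0) (hφ : Ms φ)
    (hc : ∀ᵐ x ∂bern d, PConf (Ll φ a b x) (Lb φ a b x) ∧ MConf (Ll φ a b x) (Lq φ a b x)) :
    False := by
  classical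
  -- rays
  have hray : ∀ s t : Gd d, s ≠ 0 → t ≠ 0 →
      (∀ᵐ x ∂bern d, (φ (sh s x)).1 = (φ x).1 + 1 → (φ x).2.2 = none ∧ (φ (sh s x)).2.2 = some 0) →
      ∀ᵐ x ∂bern d, ∀ g, ∃ j : ℕ, (φ (sh (s + (g + j • t)) x)).1 ≠ (φ (sh (g + j • t) x)).1 + 1 := by
    intro s t hs ht hm
    let R : Set (Om d) := {x | ∀ j : ℕ, (φ (sh (s + j • t) x)).1 = (φ (sh (j • t) x)).1 + 1}
    have hRm : MeasurableSet R := by
      have h : R = ⋂ j : ℕ, {x | (φ (sh (s + j • t) x)).1 = (φ (sh (j • t) x)).1 + 1} := by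
        ext x
        simp [R]
      rw [h]
      refine MeasurableSet.iInter fun j => ?_
      have h1 : Ms fun x => decide ((φ (sh (s + j • t) x)).1 = (φ (sh (j • t) x)).1 + 1) :=
        (hφ.precomp (sh_meas _)).map2 (hφ.precomp (sh_meas _)) fun m n => decide (m.1 = n.1 + 1)
      have h2 := h1 true
      simpa using h2
    have hR : ∀ x, x ∈ R → sh t x ∈ R := by
      intro x hx j
      have h1 := hx (j + 1)
      rw [← sh_add, ← sh_add, show s + j • t + t = s + (j + 1) • t by rw [succ_nsmul]; abel,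
        show j • t + t = (j + 1) • t by rw [succ_nsmul]]
      exact h1
    rcases mono_null ht hRm hR with h | h
    · filter_upwards [ae_orbit h] with x hx g
      have h1 := hx g
      by_contra hcon
      push Not at hcon
      apply h1
      intro j
      have h2 := hcon j
      rw [← sh_add, ← sh_add, show s + j • t + g = s + (g + j • t) by abel,
        show j • t + g = g + j • t by abel]
      exact h2
    · exfalso
      obtain ⟨x, hx1, hx2⟩ := ((ae_orbit h).and (ae_orbit hm)).exists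
      have h1 := hx1 0 0
      have h2 := hx1 s 0
      rw [zero_smul, add_zero, sh_zero, sh_zero] at h1
      rw [zero_smul, add_zero, sh_zero] at h2
      have h3 := (hx2 0)
      rw [sh_zero] at h3
      have h4 := (h3 h1).2
      have h5 := (hx2 s h2).1
      rw [h4] at h5
      exact absurd h5 (by simp)
  have hno : ∀ᵐ x ∂bern d, NoRay (Ll φ a b x) := by
    have h1 : ∀ σ τ : ℤ, Sg σ → Sg τ → ∀ᵐ x ∂bern d, ∀ u v : ℤ,
        (∃ j : ℕ, Ll φ a b x (u + σ) (v + τ * j) ≠ Ll φ a b x u (v + τ * j) + 1) ∧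
        ∃ j : ℕ, Ll φ a b x (u + τ * j) (v + σ) ≠ Ll φ a b x (u + τ * j) v + 1 := by
      intro σ τ hσ hτ
      have r1 := hray (σ • a) (τ • b) (sg_smul hσ ha) (sg_smul hτ hb) (by
        filter_upwards [hc] with x hx h1
        have h2 := hx.2.m1x 0 0 σ hσ
        unfold Ll Lq at h2
        rw [← pos_sa, pos_zero, add_zero, sh_zero] at h2
        exact h2 h1)
      have r2 := hray (σ • b) (τ • a) (sg_smul hσ hb) (sg_smul hτ ha) (by
        filter_upwards [hc] with x hx h1
        have h2 := hx.2.m1y 0 0 σ hσ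
        unfold Ll Lq at h2
        rw [← pos_sb, pos_zero, add_zero, sh_zero] at h2
        exact h2 h1)
      filter_upwards [r1, r2] with x h1 h2 u v
      constructor
      · obtain ⟨j, hj⟩ := h1 (pos a b u v)
        refine ⟨j, ?_⟩
        rw [pos_nb, pos_sa] at hj
        exact hj
      · obtain ⟨j, hj⟩ := h2 (pos a b u v)
        refine ⟨j, ?_⟩
        rw [pos_na, pos_sb] at hj
        exact hj
    have o1 : Sg 1 := Or.inl rfl
    have o2 : Sg (-1) := Or.inr rfl
    filter_upwards [h1 1 1 o1 o1, h1 1 (-1) o1 o2, h1 (-1) 1 o2 o1, h1 (-1) (-1) o2 o2]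
      with x k1 k2 k3 k4
    constructor
    · rintro u v s t (rfl | rfl) (rfl | rfl)
      · exact (k1 u v).1
      · exact (k2 u v).1
      · exact (k3 u v).1
      · exact (k4 u v).1
    · rintro u v s t (rfl | rfl) (rfl | rfl)
      · exact (k1 u v).2
      · exact (k2 u v).2
      · exact (k3 u v).2
      · exact (k4 u v).2
  have hQ : Ms fun x => (φ x).2.2 := hφ.comp fun s => s.2.2
  have hT : ∀ᵐ x ∂bern d, (∃ u v, Top (Ll φ a b x) u v) ∧ ∀ (u v : ℤ) (n : ℕ),
      Top (Ll φ a b x) u v → Top (Ll φ a b x) (u + n) v →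
      (Lb φ a b x (u + n) v ^^ par (u + n + v)) = (Lb φ a b x u v ^^ par (u + v)) := by
    filter_upwards [hc, hno, row_bc hQ ((1 : ℤ) • a), row_bc hQ ((-1 : ℤ) • a),
      row_bc hQ ((1 : ℤ) • b), row_bc hQ ((-1 : ℤ) • b)] with x h1 h2 b1 b2 b3 b4
    rcases plane h1.1 h1.2 h2 with h3 | h3
    · exfalso
      obtain ⟨N, hN⟩ := eventually_atTop.1 (b1.and (b2.and (b3.and b4)))
      obtain ⟨k, hk, s, hs, h4⟩ := h3 0 0 N
      have h5 := hN k hk
      rcases hs with rfl | rfl
      · rcases h4 with h4 | h4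
        · exact h5.1 (row_ax h4)
        · exact h5.2.2.1 (row_ay h4)
      · rcases h4 with h4 | h4
        · exact h5.2.1 (row_ax h4)
        · exact h5.2.2.2 (row_ay h4)
    · exact h3
  -- the row of the origin meets the top level
  have e10 : pos a b 1 0 = a := by simp [pos]
  have htop : ∀ (x : Om d) (n : ℤ), Top (Ll φ a b x) n 0 → Top (Ll φ a b (sh a x)) (n - 1) 0 := by
    intro x n hn
    have h := top_sh (φ := φ) (a := a) (b := b) x (n - 1) 0 1 0
    rw [e10, add_zero, show 1 + (n - 1) = n by ring] at h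
    exact h.2 hn
  have hG : ∀ᵐ x ∂bern d, ∃ n : ℤ, Top (Ll φ a b x) n 0 := by
    have hGm : MeasurableSet {x | ∃ n : ℤ, Top (Ll φ a b x) n 0} := by
      have h : {x | ∃ n : ℤ, Top (Ll φ a b x) n 0} = ⋃ n : ℤ, {x | Top (Ll φ a b x) n 0} := by
        ext x
        simp
      rw [h]
      exact MeasurableSet.iUnion fun n => top_meas hφ n 0
    rcases mono_null ha hGm (by
      rintro x ⟨n, hn⟩
      exact ⟨n - 1, htop x n hn⟩) with h | h
    · exfalso
      obtain ⟨x, h1, h2⟩ := ((ae_orbit h).and hT).exists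
      obtain ⟨⟨u, v, huv⟩, -⟩ := h2
      refine h1 (pos a b 0 v) ⟨u, ?_⟩
      rw [top_sh, zero_add, add_zero]
      exact huv
    · exact h
  have hF : Ms fun x => decide (∃ n : ℤ, Top (Ll φ a b x) n 0 ∧
      (Lb φ a b x n 0 ^^ par n) = true) := by
    have hm : MeasurableSet {x | ∃ n : ℤ, Top (Ll φ a b x) n 0 ∧
        (Lb φ a b x n 0 ^^ par n) = true} := by
      have h : {x | ∃ n : ℤ, Top (Ll φ a b x) n 0 ∧ (Lb φ a b x n 0 ^^ par n) = true} =
          ⋃ n : ℤ, ({x | Top (Ll φ a b x) n 0} ∩ {x | (Lb φ a b x n 0 ^^ par n) = true}) := by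
        ext x
        simp
      rw [h]
      refine MeasurableSet.iUnion fun n => (top_meas hφ n 0).inter ?_
      exact ((Lb_meas hφ n 0).comp fun c => (c ^^ par n)) true
    intro c
    cases c
    · have : {x | decide (∃ n : ℤ, Top (Ll φ a b x) n 0 ∧ (Lb φ a b x n 0 ^^ par n) = true) =
          false} = {x | ∃ n : ℤ, Top (Ll φ a b x) n 0 ∧
        (Lb φ a b x n 0 ^^ par n) = true}ᶜ := by
        ext x
        rw [Set.mem_ofPred_eq, decide_eq_false_iff_not]
        rfl
      rw [this]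
      exact hm.compl
    · have : {x | decide (∃ n : ℤ, Top (Ll φ a b x) n 0 ∧ (Lb φ a b x n 0 ^^ par n) = true) =
          true} = {x | ∃ n : ℤ, Top (Ll φ a b x) n 0 ∧
        (Lb φ a b x n 0 ^^ par n) = true} := by
        ext x
        rw [Set.mem_ofPred_eq, decide_eq_true_iff]
        rfl
      rw [this]
      exact hm
  obtain ⟨F, hFd⟩ : ∃ F : Om d → Bool, F = fun x => decide (∃ n : ℤ, Top (Ll φ a b x) n 0 ∧
      (Lb φ a b x n 0 ^^ par n) = true) := ⟨_, rfl⟩
  rw [← hFd] at hF
  have hconst : ∀ x, (∀ (u v : ℤ) (n : ℕ),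
      Top (Ll φ a b x) u v → Top (Ll φ a b x) (u + n) v →
      (Lb φ a b x (u + n) v ^^ par (u + n + v)) = (Lb φ a b x u v ^^ par (u + v))) →
      ∀ m n : ℤ, Top (Ll φ a b x) m 0 → Top (Ll φ a b x) n 0 →
        (Lb φ a b x m 0 ^^ par m) = (Lb φ a b x n 0 ^^ par n) := by
    intro x hx m n hm hn
    have key : ∀ m n : ℤ, m ≤ n → Top (Ll φ a b x) m 0 → Top (Ll φ a b x) n 0 →
        (Lb φ a b x n 0 ^^ par n) = (Lb φ a b x m 0 ^^ par m) := by
      intro m n hmn hm hn
      have h1 := hx m 0 (n - m).toNat hm (by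
        rw [Int.toNat_of_nonneg (by omega), show m + (n - m) = n by ring]
        exact hn)
      rw [Int.toNat_of_nonneg (by omega), show m + (n - m) = n by ring, add_zero, add_zero] at h1
      exact h1
    rcases le_total m n with h | h
    · exact (key m n h hm hn).symm
    · exact key n m h hn hm
  have hFval : ∀ x, (∀ (u v : ℤ) (n : ℕ),
      Top (Ll φ a b x) u v → Top (Ll φ a b x) (u + n) v →
      (Lb φ a b x (u + n) v ^^ par (u + n + v)) = (Lb φ a b x u v ^^ par (u + v))) →
      ∀ m : ℤ, Top (Ll φ a b x) m 0 → F x = (Lb φ a b x m 0 ^^ par m) := by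
    intro x hx m hm
    rw [hFd]
    change decide (∃ n : ℤ, Top (Ll φ a b x) n 0 ∧ (Lb φ a b x n 0 ^^ par n) = true) = _
    cases hv : (Lb φ a b x m 0 ^^ par m)
    · rw [decide_eq_false_iff_not]
      rintro ⟨n, hn, hn'⟩
      rw [hconst x hx n m hn hm, hv] at hn'
      exact absurd hn' (by decide)
    · rw [decide_eq_true_iff]
      exact ⟨m, hm, hv⟩
  have hflip : ∀ᵐ x ∂bern d, F (sh a x) = !F x := by
    filter_upwards [hG, ae_orbit hT] with x h1 h2
    obtain ⟨n, hn⟩ := h1
    have h3 := h2 0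
    rw [sh_zero] at h3
    have h4 := h2 a
    have h5 := htop x n hn
    rw [hFval x h3.2 n hn, hFval _ h4.2 (n - 1) h5]
    have h6 : Lb φ a b (sh a x) (n - 1) 0 = Lb φ a b x n 0 := by
      have := Lb_sh (φ := φ) (a := a) (b := b) x (n - 1) 0 1 0
      rw [e10, add_zero, show 1 + (n - 1) = n by ring] at this
      exact this
    have h7 := par_succ (n - 1)
    rw [show n - 1 + 1 = n by ring] at h7
    rw [h6, h7]
    cases Lb φ a b x n 0 <;> cases par (n - 1) <;> rfl
  have h2a : (2 : ℕ) • a ≠ 0 := by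
    rw [two_nsmul]
    intro h
    apply ha
    funext i
    have := congrFun h i
    simp only [Pi.add_apply, Pi.zero_apply] at this ⊢
    omega
  obtain ⟨c, hcst⟩ := erg h2a hF (by
    filter_upwards [ae_orbit hflip] with x hx
    have h1 := hx 0
    have h2 := hx a
    rw [sh_zero] at h1
    rw [← sh_add, ← two_nsmul] at h2
    rw [h2, h1, Bool.not_not])
  obtain ⟨x, h1, h2⟩ := (hflip.and (ae_orbit hcst)).exists
  have h3 := h2 0
  have h4 := h2 a
  rw [sh_zero] at h3
  rw [h3, h4] at h1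
  cases c <;> exact absurd h1 (by decide)

end

end BMP
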