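import Pool.Agent.Helper13.BM.Plane

/-!
# Project BM (MP_eb515b_lc): moats on the plane
-/

set_option autoImplicit false

namespace BMP

open NIC

/-- the rules for the moat labels on the plane -/
structure MConf (l : ℤ → ℤ → ZMod 3) (q : ℤ → ℤ → Option (ZMod 3)) : Prop where
  m1x : ∀ x y s, Sg s → l (x + s) y = l x y + 1 → q x y = none ∧ q (x + s) y = some 0
  m1y : ∀ x y s, Sg s → l x (y + s) = l x y + 1 → q x y = none ∧ q x (y + s) = some 0
  m2x : ∀ x y s k, Sg s → q x y = some k →
    ((k = 0 ∧ l x y = l (x - s) y + 1) ∨ q (x - s) y = some (k - 1)) →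
    q x (y + 1) = some k → q x (y - 1) = some k → q (x + s) y = some (k + 1)
  m2y : ∀ x y s k, Sg s → q x y = some k →
    ((k = 0 ∧ l x y = l x (y - s) + 1) ∨ q x (y - s) = some (k - 1)) →
    q (x + 1) y = some k → q (x - 1) y = some k → q x (y + s) = some (k + 1)

/-- the row of moat labels in the direction `s` of the first axis -/
def Atx (q : ℤ → ℤ → Option (ZMod 3)) (k : ℕ) (x y s : ℤ) : Prop :=
  q (x + s * k) y = none ∧ ∀ i : ℕ, i ≤ k → q (x + s * (k + 1 + i)) y = some (i : ZMod 3)

/-- the row of moat labels in the direction `s` of the second axis -/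
def Aty (q : ℤ → ℤ → Option (ZMod 3)) (k : ℕ) (x y s : ℤ) : Prop :=
  q x (y + s * k) = none ∧ ∀ i : ℕ, i ≤ k → q x (y + s * (k + 1 + i)) = some (i : ZMod 3)

variable {l : ℤ → ℤ → ZMod 3} {b : ℤ → ℤ → Bool} {q : ℤ → ℤ → Option (ZMod 3)}

theorem MConf.swap (h : MConf l q) : MConf (fun x y => l y x) (fun x y => q y x) where
  m1x x y s hs h1 := h.m1y y x s hs h1
  m1y x y s hs h1 := h.m1x y x s hs h1
  m2x x y s k hs h1 h2 h3 h4 := h.m2y y x s k hs h1 h2 h3 h4
  m2y x y s k hs h1 h2 h3 h4 := h.m2x y x s k hs h1 h2 h3 h4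

theorem MConf.moat (h : MConf l q) {x y s : ℤ} (hs : Sg s) {k : ℕ}
    (hf : ∀ w : ℤ, |w| ≤ k → l (x + s * (k + 1)) (y + w) = l (x + s * k) (y + w) + 1) (i : ℕ) :
    ∀ w : ℤ, |w| + i ≤ k → q (x + s * (k + 1 + i)) (y + w) = some (i : ZMod 3) := by
  induction i using Nat.strong_induction_on with
  | _ i ih =>
    intro w hw
    rcases Nat.eq_zero_or_pos i with hi | hi
    · subst hi
      have h1 := hf w (by push_cast at hw; omega)
      rw [show x + s * ((k : ℤ) + 1) = x + s * k + s by ring] at h1
      have h2 := (h.m1x _ _ s hs h1).2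
      rw [show x + s * ((k : ℤ) + 1 + ((0 : ℕ) : ℤ)) = x + s * k + s by push_cast; ring]
      simpa using h2
    obtain ⟨n, rfl⟩ : ∃ n, i = n + 1 := ⟨i - 1, by omega⟩
    push_cast at hw
    have e : x + s * ((k : ℤ) + 1 + ((n + 1 : ℕ) : ℤ)) = x + s * (k + 1 + n) + s := by
      push_cast
      ring
    rw [e]
    have hw1 : |w + 1| ≤ |w| + 1 := by
      have := abs_add_le w 1
      simpa using this
    have hw2 : |w - 1| ≤ |w| + 1 := by
      have := abs_sub w 1
      simpa using this
    have h1 := ih n (by omega) w (by omega)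
    have h2 := ih n (by omega) (w + 1) (by omega)
    have h3 := ih n (by omega) (w - 1) (by omega)
    have h4 := h.m2x (x + s * (k + 1 + n)) (y + w) s (n : ZMod 3) hs h1 ?_ (by
      rw [show y + w + 1 = y + (w + 1) by ring]
      exact h2) (by
      rw [show y + w - 1 = y + (w - 1) by ring]
      exact h3)
    · rw [h4]
      push_cast
      rfl
    · rcases Nat.eq_zero_or_pos n with hn | hn
      · subst hn
        left
        refine ⟨by simp, ?_⟩
        have h5 := hf w (by push_cast at hw; omega)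
        rw [show x + s * ((k : ℤ) + 1 + ((0 : ℕ) : ℤ)) = x + s * (k + 1) by push_cast; ring,
          show x + s * ((k : ℤ) + 1) - s = x + s * k by ring]
        exact h5
      · obtain ⟨m, rfl⟩ : ∃ m, n = m + 1 := ⟨n - 1, by omega⟩
        right
        have h5 := ih m (by omega) w (by push_cast at hw; omega)
        rw [show x + s * ((k : ℤ) + 1 + ((m + 1 : ℕ) : ℤ)) - s = x + s * (k + 1 + m) by push_cast; ring,
          h5]
        push_cast
        rw [add_sub_cancel_right]

/-- the row of moat labels behind a long face -/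
theorem MConf.atx (h : MConf l q) {x y s : ℤ} (hs : Sg s) {k : ℕ}
    (hf : ∀ w : ℤ, |w| ≤ k → l (x + s * (k + 1)) (y + w) = l (x + s * k) (y + w) + 1) :
    Atx q k x y s := by
  refine ⟨?_, fun i hi => ?_⟩
  · have h1 := hf 0 (by simp)
    rw [show x + s * ((k : ℤ) + 1) = x + s * k + s by ring, add_zero] at h1
    exact (h.m1x _ _ s hs h1).1
  · have := h.moat hs hf i 0 (by simpa using hi)
    rwa [add_zero] at this

/-! ### The height function of a configuration -/

/-- the change of height along `p` steps of sign `s` in a row and then `p'` steps of sign `t` in a column -/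
def dH (l : ℤ → ℤ → ZMod 3) (x y s t : ℤ) (p p' : ℕ) : ℤ :=
  ∑ i ∈ Finset.range p, dl (l (x + s * (i + 1)) y - l (x + s * i) y) +
    ∑ j ∈ Finset.range p', dl (l (x + s * p) (y + t * (j + 1)) - l (x + s * p) (y + t * j))

/-- the cell is in the top level -/
def Top (l : ℤ → ℤ → ZMod 3) (x y : ℤ) : Prop :=
  ∀ s t, Sg s → Sg t → ∀ p p' : ℕ, dH l x y s t p p' ≤ 0

/-- no straight ray of exit edges -/
structure NoRay (l : ℤ → ℤ → ZMod 3) : Prop where
  fx : ∀ x y s t, Sg s → Sg t → ∃ j : ℕ, l (x + s) (y + t * j) ≠ l x (y + t * j) + 1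
  fy : ∀ x y s t, Sg s → Sg t → ∃ j : ℕ, l (x + t * j) (y + s) ≠ l (x + t * j) y + 1

theorem dl_one (a : ZMod 3) : dl a = 1 ↔ a = 1 := by
  revert a
  decide

theorem exists_ht (h : PConf l b) :
    ∃ H : ℤ → ℤ → ℤ, Ht H ∧ (∀ x y, ((H x y : ℤ) : ZMod 3) = l x y) ∧
      (∀ x y s, Sg s → H (x + s) y = H x y + dl (l (x + s) y - l x y)) ∧
      ∀ x y s, Sg s → H x (y + s) = H x y + dl (l x (y + s) - l x y) := by
  obtain ⟨H, hl, hx, hy⟩ := exists_lift l h.face
  have hx' : ∀ x y s, Sg s → H (x + s) y = H x y + dl (l (x + s) y - l x y) := by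
    rintro x y s (hs | hs) <;> subst hs
    · exact hx x y
    · have := hx (x + -1) y
      rw [show x + -1 + 1 = x by ring] at this
      rw [this, ← neg_sub (l x y), dl_neg]
      ring
  have hy' : ∀ x y s, Sg s → H x (y + s) = H x y + dl (l x (y + s) - l x y) := by
    rintro x y s (hs | hs) <;> subst hs
    · exact hy x y
    · have := hy x (y + -1)
      rw [show y + -1 + 1 = y by ring] at this
      rw [this, ← neg_sub (l x y), dl_neg]
      ring
  have hd : ∀ x y s t, Sg s → Sg t →
      H (x + s) (y + t) = H x y + (dl (l (x + s) y - l x y) + dl (l (x + s) (y + t) - l (x + s) y)) := by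
    intro x y s t hs ht
    rw [hy' (x + s) y t ht, hx' x y s hs]
    ring
  refine ⟨H, ⟨?_, ?_, ?_⟩, hl, hx', hy'⟩
  · intro x y s hs
    rw [hx' x y s hs]
    have := dl_le (l (x + s) y - l x y)
    omega
  · intro x y s hs
    rw [hy' x y s hs]
    have := dl_le (l x (y + s) - l x y)
    omega
  · intro m
    constructor
    · intro x y s t hs ht a1 a2 a3
      have hF := (h.face' x y s t hs ht).three
      rw [hx' x y s hs] at a2
      rw [hy' x y t ht] at a3
      rw [hd x y s t hs ht]
      omega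
    · intro x y s t hs ht a1 a2
      have hF := (h.face' x y s t hs ht).diag
      rw [hd x y s t hs ht] at a2
      rw [hx' x y s hs]
      omega

theorem dH_eq {H : ℤ → ℤ → ℤ}
    (hx : ∀ x y s, Sg s → H (x + s) y = H x y + dl (l (x + s) y - l x y))
    (hy : ∀ x y s, Sg s → H x (y + s) = H x y + dl (l x (y + s) - l x y))
    {x y s t : ℤ} (hs : Sg s) (ht : Sg t) (p p' : ℕ) :
    H (x + s * p) (y + t * p') = H x y + dH l x y s t p p' := by
  have h1 : ∀ p : ℕ, H (x + s * p) y =
      H x y + ∑ i ∈ Finset.range p, dl (l (x + s * (i + 1)) y - l (x + s * i) y) := by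
    intro p
    induction p with
    | zero => simp
    | succ p ih =>
      rw [Finset.sum_range_succ, show x + s * ((p + 1 : ℕ) : ℤ) = x + s * p + s by push_cast; ring,
        hx _ _ s hs, ih, show x + s * (p : ℤ) + s = x + s * (p + 1) by ring]
      ring
  have h2 : ∀ p' : ℕ, H (x + s * p) (y + t * p') = H (x + s * p) y +
      ∑ j ∈ Finset.range p', dl (l (x + s * p) (y + t * (j + 1)) - l (x + s * p) (y + t * j)) := by
    intro p'
    induction p' with
    | zero => simp
    | succ p' ih =>
      rw [Finset.sum_range_succ, show y + t * ((p' + 1 : ℕ) : ℤ) = y + t * p' + t by push_cast; ring,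
        hy _ _ t ht, ih, show y + t * (p' : ℤ) + t = y + t * (p' + 1) by ring]
      ring
  rw [h2, h1]
  unfold dH
  ring

theorem top_iff {H : ℤ → ℤ → ℤ}
    (hx : ∀ x y s, Sg s → H (x + s) y = H x y + dl (l (x + s) y - l x y))
    (hy : ∀ x y s, Sg s → H x (y + s) = H x y + dl (l x (y + s) - l x y)) (x y : ℤ) :
    Top l x y ↔ ∀ u v, H u v ≤ H x y := by
  constructor
  · intro h u v
    obtain ⟨s, hs, hu⟩ := exists_sg (u - x)
    obtain ⟨t, ht, hv⟩ := exists_sg (v - y)
    have h1 := h s t hs ht (u - x).natAbs (v - y).natAbs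
    have h2 := dH_eq hx hy (x := x) (y := y) hs ht (u - x).natAbs (v - y).natAbs
    rw [← hu, ← hv, show x + (u - x) = u by ring, show y + (v - y) = v by ring] at h2
    omega
  · intro h s t hs ht p p'
    have h1 := h (x + s * p) (y + t * p')
    rw [dH_eq hx hy hs ht] at h1
    omega

/-- The dichotomy: every cell sees rows of moat labels of unbounded depth, or there is a top level and the phase is
constant along its rows. -/
theorem plane (h : PConf l b) (hm : MConf l q) (hr : NoRay l) :
    (∀ x y, ∀ n : ℕ, ∃ k, n ≤ k ∧ ∃ s, Sg s ∧ (Atx q k x y s ∨ Aty q k x y s)) ∨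
    ((∃ x y, Top l x y) ∧ ∀ (x y : ℤ) (n : ℕ), Top l x y → Top l (x + n) y →
      (b (x + n) y ^^ par (x + n + y)) = (b x y ^^ par (x + y))) := by
  obtain ⟨H, hH, hl, hx, hy⟩ := exists_ht h
  have hstep : ∀ {x y x' y' : ℤ}, H x' y' = H x y + 1 → l x' y' = l x y + 1 := by
    intro x y x' y' e
    rw [← hl, ← hl, e]
    push_cast
    rfl
  have hstepx : ∀ {x y s : ℤ}, Sg s → l (x + s) y ≠ l x y + 1 → H (x + s) y ≠ H x y + 1 :=
    fun _ h1 h2 => h1 (hstep h2)
  have hR : NoRayH H := by
    constructor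
    · intro x y s t hs ht
      obtain ⟨j, hj⟩ := hr.fx x y s t hs ht
      exact ⟨j, fun e => hj (hstep e)⟩
    · intro x y s t hs ht
      obtain ⟨j, hj⟩ := hr.fy x y s t hs ht
      exact ⟨j, fun e => hj (hstep e)⟩
  by_cases hb : ∃ M, ∀ u v, H u v ≤ M
  · right
    obtain ⟨M, ⟨u, v, huv⟩, hM⟩ : ∃ M : ℤ, (∃ u v, H u v = M) ∧ ∀ u v, H u v ≤ M := by
      obtain ⟨B, hB⟩ := hb
      obtain ⟨M, hM1, hM2⟩ := Int.exists_greatest_of_bdd (P := fun k => ∃ u v, H u v = k)
        ⟨B, by rintro z ⟨u, v, rfl⟩; exact hB u v⟩ ⟨H 0 0, 0, 0, rfl⟩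
      exact ⟨M, hM1, fun u v => hM2 _ ⟨u, v, rfl⟩⟩
    have htop : ∀ x y, Top l x y ↔ H x y = M := by
      intro x y
      rw [top_iff hx hy]
      constructor
      · intro h1
        have h2 := h1 u v
        have h3 := hM x y
        omega
      · intro h1 u v
        rw [h1]
        exact hM u v
    refine ⟨⟨u, v, (htop u v).2 huv⟩, fun x y n h1 h2 => ?_⟩
    rw [htop] at h1 h2
    have leq : ∀ {x y x' y' : ℤ}, H x y = H x' y' → l x y = l x' y' := fun {x y x' y'} e => by
      rw [← hl, ← hl, e]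
    exact hH.row hR hM (c := fun x y => b x y ^^ par (x + y))
      (fun x y e => by
        have h3 := h.px x y (leq e)
        have h4 : par (x + 1 + y) = !par (x + y) := by
          rw [← par_succ]
          congr 1
          ring
        simp only [h4]
        revert h3
        cases b (x + 1) y <;> cases b x y <;> cases par (x + y) <;> simp)
      (fun x y e => by
        have h3 := h.py x y (leq e)
        have h4 : par (x + (y + 1)) = !par (x + y) := by
          rw [← par_succ]
          congr 1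
          ring
        simp only [h4]
        revert h3
        cases b x (y + 1) <;> cases b x y <;> cases par (x + y) <;> simp) n x y h1 h2
  · left
    push Not at hb
    intro x y n
    obtain ⟨u, v, huv⟩ := hb (H x y + n)
    obtain ⟨k, hk, s, hs, h1 | h1⟩ := hH.near hR (m := H x y + n) ⟨u, v, by omega⟩
      (x := x) (y := y) (n := n) le_rfl
    · refine ⟨k, hk, s, hs, Or.inl (hm.atx hs fun w hw => ?_)⟩
      obtain ⟨t, ht, hw'⟩ := exists_sg w
      have h2 := h1 t ht w.natAbs (by
        rw [Int.abs_eq_natAbs] at hw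
        exact_mod_cast hw)
      rw [← hw'] at h2
      exact hstep h2
    · refine ⟨k, hk, s, hs, Or.inr ?_⟩
      have h3 := hm.swap.atx (x := y) (y := x) hs (k := k) (fun w hw => by
        obtain ⟨t, ht, hw'⟩ := exists_sg w
        have h2 := h1 t ht w.natAbs (by
          rw [Int.abs_eq_natAbs] at hw
          exact_mod_cast hw)
        rw [← hw'] at h2
        exact hstep h2)
      exact h3

end BMP
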