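import Pool.Agent.Helper24.NI.Plane

/-!
# Project BM (MP_eb515b_lc): the plane

A configuration on the plane with the labels of NI (`l : ZMod 3`, `b : Bool`) and moat labels `q : Option (ZMod 3)`.
If no straight ray of exit edges occurs then either every cell sees moats of unbounded depth, or the height function
is bounded above and the phase is constant along the rows of the top level.
-/

set_option autoImplicit false

namespace BMP

open NIC

/-- An integer valued function on the plane whose sublevel sets are unions of boxes. -/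
structure Ht (H : ℤ → ℤ → ℤ) : Prop where
  lipx : ∀ x y s, Sg s → H (x + s) y ≤ H x y + 1
  lipy : ∀ x y s, Sg s → H x (y + s) ≤ H x y + 1
  sq : ∀ m, Sq fun x y => H x y ≤ m

/-- no straight ray of exit edges -/
structure NoRayH (H : ℤ → ℤ → ℤ) : Prop where
  fx : ∀ x y s t, Sg s → Sg t → ∃ j : ℕ, H (x + s) (y + t * j) ≠ H x (y + t * j) + 1
  fy : ∀ x y s t, Sg s → Sg t → ∃ j : ℕ, H (x + t * j) (y + s) ≠ H (x + t * j) y + 1

variable {H : ℤ → ℤ → ℤ}

theorem Ht.swap (h : Ht H) : Ht (fun x y => H y x) where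
  lipx x y s hs := h.lipy y x s hs
  lipy x y s hs := h.lipx y x s hs
  sq m := (h.sq m).swap

theorem NoRayH.swap (h : NoRayH H) : NoRayH (fun x y => H y x) where
  fx x y s t hs ht := h.fy y x s t hs ht
  fy x y s t hs ht := h.fx y x s t hs ht

theorem Ht.ball (h : Ht H) (x y s : ℤ) (hs : Sg s) (j : ℕ) : H (x + s * j) y ≤ H x y + j := by
  induction j with
  | zero => simp
  | succ j ih =>
    have h1 := h.lipx (x + s * j) y s hs
    rw [show x + s * (j : ℤ) + s = x + s * ((j + 1 : ℕ) : ℤ) by push_cast; ring] at h1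
    push_cast at h1 ⊢
    omega

/-- the cells inside and outside of the end of a run -/
theorem Ht.face (h : Ht H) {m x y s t : ℤ} (hs : Sg s) (ht : Sg t) {p q : ℕ}
    (hx : ∀ i : ℕ, i ≤ p → H (x + s * i) y ≤ m) (hy : ∀ j : ℕ, j ≤ q → H x (y + t * j) ≤ m)
    (hn : ¬ H (x + s * (p + 1)) y ≤ m) (j : ℕ) (hj : j ≤ q) :
    H (x + s * p) (y + t * j) = m ∧ H (x + s * (p + 1)) (y + t * j) = m + 1 := by
  have a1 := (h.sq m).box hs ht hx hy j hj p le_rfl
  have a2 := (h.sq m).wall hs ht hx hy hn j hj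
  have a3 := h.lipx (x + s * p) (y + t * j) s hs
  rw [show x + s * (p : ℤ) + s = x + s * (p + 1) by ring] at a3
  omega

/-- an infinite run in the direction `s` forces infinite perpendicular runs -/
theorem Ht.inf (h : Ht H) (hr : NoRayH H) {m x y s : ℤ} (hs : Sg s)
    (hx : ∀ i : ℕ, H (x + s * i) y ≤ m) {t : ℤ} (ht : Sg t) (j : ℕ) : H x (y + t * j) ≤ m := by
  rcases run_or (fun j : ℕ => H x (y + t * j) ≤ m) (by simpa using hx 0) with h1 | ⟨q, hq, hn⟩
  · exact h1 j
  · exfalso
    obtain ⟨i, hi⟩ := hr.fy x (y + t * q) t s ht hs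
    have h2 := h.swap.face (x := y) (y := x) (m := m) ht hs (p := q) (q := i) hq (fun i _ => hx i)
      (by
        have : (((q + 1 : ℕ) : ℤ)) = (q : ℤ) + 1 := by push_cast; ring
        rw [this] at hn
        exact hn) i le_rfl
    apply hi
    rw [show y + t * (q : ℤ) + t = y + t * (q + 1) by ring]
    omega

/-- all runs end -/
theorem Ht.endx (h : Ht H) (hr : NoRayH H) {m : ℤ} (hV : ∃ u v, ¬ H u v ≤ m) {x y : ℤ}
    (hxy : H x y ≤ m) {s : ℤ} (hs : Sg s) :
    ∃ p : ℕ, (∀ i : ℕ, i ≤ p → H (x + s * i) y ≤ m) ∧ ¬ H (x + s * (p + 1)) y ≤ m := by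
  rcases run_or (fun i : ℕ => H (x + s * i) y ≤ m) (by simpa using hxy) with h1 | ⟨p, hp, hn⟩
  · exfalso
    have hy : ∀ t, Sg t → ∀ j : ℕ, H x (y + t * j) ≤ m := fun t ht j => h.inf hr hs h1 ht j
    have hx : ∀ s', Sg s' → ∀ i : ℕ, H (x + s' * i) y ≤ m := fun s' hs' i =>
      h.swap.inf hr.swap (x := y) (y := x) (s := 1) (Or.inl rfl) (hy 1 (Or.inl rfl)) hs' i
    obtain ⟨u, v, huv⟩ := hV
    exact huv ((h.sq m).all (x := x) (y := y) hx hy u v)
  · refine ⟨p, hp, ?_⟩
    have : (((p + 1 : ℕ) : ℤ)) = (p : ℤ) + 1 := by push_cast; ring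
    rw [this] at hn
    exact hn

/-- If the height is not bounded by `m` then around each cell with height `≤ m` there is a nearest face of the box, with
distance `k`, in one of the four directions; the face extends by at least `k` on both sides. -/
theorem Ht.near (h : Ht H) (hr : NoRayH H) {m : ℤ} (hV : ∃ u v, ¬ H u v ≤ m) {x y : ℤ} {n : ℕ}
    (hxy : H x y + n ≤ m) :
    ∃ k : ℕ, n ≤ k ∧ ∃ s, Sg s ∧
      ((∀ t, Sg t → ∀ j : ℕ, j ≤ k →
          H (x + s * (k + 1)) (y + t * j) = H (x + s * k) (y + t * j) + 1) ∨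
        ∀ t, Sg t → ∀ j : ℕ, j ≤ k →
          H (x + t * j) (y + s * (k + 1)) = H (x + t * j) (y + s * k) + 1) := by
  have h0 : H x y ≤ m := by omega
  have hV' : ∃ u v, ¬ (fun x y => H y x) u v ≤ m := by
    obtain ⟨u, v, huv⟩ := hV
    exact ⟨v, u, huv⟩
  obtain ⟨p1, hp1, hn1⟩ := h.endx hr hV h0 (s := 1) (Or.inl rfl)
  obtain ⟨p2, hp2, hn2⟩ := h.endx hr hV h0 (s := -1) (Or.inr rfl)
  obtain ⟨q1, hq1, hm1⟩ := h.swap.endx hr.swap hV' (x := y) (y := x) h0 (s := 1) (Or.inl rfl)
  obtain ⟨q2, hq2, hm2⟩ := h.swap.endx hr.swap hV' (x := y) (y := x) h0 (s := -1) (Or.inr rfl)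
  have hb : ∀ s, Sg s → ∀ p : ℕ, ¬ H (x + s * (p + 1)) y ≤ m → n ≤ p := by
    intro s hs p hn
    by_contra hc
    apply hn
    have := h.ball x y s hs (p + 1)
    push_cast at this
    omega
  have hb' : ∀ s, Sg s → ∀ p : ℕ, ¬ H x (y + s * (p + 1)) ≤ m → n ≤ p := by
    intro s hs p hn
    by_contra hc
    apply hn
    have := h.swap.ball y x s hs (p + 1)
    push_cast at this
    omega
  have hx : ∀ s, Sg s → ∀ i : ℕ, i ≤ min p1 p2 → H (x + s * i) y ≤ m := by
    intro s hs i hi
    rcases hs with hs | hs <;> subst hs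
    · exact hp1 i (by omega)
    · exact hp2 i (by omega)
  have hy : ∀ s, Sg s → ∀ i : ℕ, i ≤ min q1 q2 → H x (y + s * i) ≤ m := by
    intro s hs i hi
    rcases hs with hs | hs <;> subst hs
    · exact hq1 i (by omega)
    · exact hq2 i (by omega)
  have cx : ∀ s, Sg s → ∀ p : ℕ, p ≤ p1 → p ≤ p2 → p ≤ q1 → p ≤ q2 →
      ¬ H (x + s * (p + 1)) y ≤ m → ∀ t, Sg t → ∀ j : ℕ, j ≤ p →
          H (x + s * (p + 1)) (y + t * j) = H (x + s * p) (y + t * j) + 1 := by
    intro s hs p h1 h2 h3 h4 h5 t ht j hj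
    have := h.face (m := m) (x := x) (y := y) hs ht (p := p) (q := p)
      (fun i hi => hx s hs i (by omega)) (fun j hj => hy t ht j (by omega)) h5 j hj
    omega
  have cy : ∀ s, Sg s → ∀ p : ℕ, p ≤ p1 → p ≤ p2 → p ≤ q1 → p ≤ q2 →
      ¬ H x (y + s * (p + 1)) ≤ m → ∀ t, Sg t → ∀ j : ℕ, j ≤ p →
          H (x + t * j) (y + s * (p + 1)) = H (x + t * j) (y + s * p) + 1 := by
    intro s hs p h1 h2 h3 h4 h5 t ht j hj
    have := h.swap.face (m := m) (x := y) (y := x) hs ht (p := p) (q := p)
      (fun i hi => hy s hs i (by omega)) (fun j hj => hx t ht j (by omega)) h5 j hj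
    omega
  by_cases c1 : p1 ≤ p2 ∧ p1 ≤ q1 ∧ p1 ≤ q2
  · exact ⟨p1, hb 1 (Or.inl rfl) p1 hn1, 1, Or.inl rfl, Or.inl
      (cx 1 (Or.inl rfl) p1 le_rfl c1.1 c1.2.1 c1.2.2 hn1)⟩
  by_cases c2 : p2 ≤ p1 ∧ p2 ≤ q1 ∧ p2 ≤ q2
  · exact ⟨p2, hb (-1) (Or.inr rfl) p2 hn2, -1, Or.inr rfl, Or.inl
      (cx (-1) (Or.inr rfl) p2 c2.1 le_rfl c2.2.1 c2.2.2 hn2)⟩
  by_cases c3 : q1 ≤ p1 ∧ q1 ≤ p2 ∧ q1 ≤ q2
  · exact ⟨q1, hb' 1 (Or.inl rfl) q1 hm1, 1, Or.inl rfl, Or.inr
      (cy 1 (Or.inl rfl) q1 c3.1 c3.2.1 le_rfl c3.2.2 hm1)⟩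
  · have c4 : q2 ≤ p1 ∧ q2 ≤ p2 ∧ q2 ≤ q1 := by omega
    exact ⟨q2, hb' (-1) (Or.inr rfl) q2 hm2, -1, Or.inr rfl, Or.inr
      (cy (-1) (Or.inr rfl) q2 c4.1 c4.2.1 c4.2.2 le_rfl hm2)⟩

/-- the phase is constant along the rows of the top level -/
theorem Ht.row (h : Ht H) (hr : NoRayH H) {M : ℤ} (hM : ∀ u v, H u v ≤ M)
    {c : ℤ → ℤ → Bool} (hcx : ∀ x y, H (x + 1) y = H x y → c (x + 1) y = c x y)
    (hcy : ∀ x y, H x (y + 1) = H x y → c x (y + 1) = c x y) (n : ℕ) :
    ∀ x y, H x y = M → H (x + n) y = M → c (x + n) y = c x y := by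
  have hsg : Sg 1 := Or.inl rfl
  have top : ∀ {u v}, ¬ H u v ≤ M - 1 → H u v = M := fun {u v} hn => by
    have := hM u v
    omega
  have sx : ∀ {x y}, H x y = M → H (x + 1) y = M → c (x + 1) y = c x y := fun h1 h2 =>
    hcx _ _ (h2.trans h1.symm)
  have sy : ∀ {x y}, H x y = M → H x (y + 1) = M → c x (y + 1) = c x y := fun h1 h2 =>
    hcy _ _ (h2.trans h1.symm)
  induction n using Nat.strong_induction_on with
  | _ n ih =>
    intro x y hx hn
    have hV : ∃ u v, ¬ H u v ≤ M - 1 := ⟨x, y, by omega⟩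
    rcases Nat.eq_zero_or_pos n with h0 | hpos
    · subst h0
      simp
    by_cases h1 : H (x + 1) y = M
    · -- one step
      have e : x + 1 + ((n - 1 : ℕ) : ℤ) = x + n := by
        push_cast [hpos]
        ring
      have := ih (n - 1) (by omega) (x + 1) y h1 (by rw [e]; exact hn)
      rw [e] at this
      rw [this, sx hx h1]
    · have hA1 : H (x + 1) y ≤ M - 1 := by
        have := hM (x + 1) y
        omega
      -- the box of `x + 1`
      obtain ⟨p, hp, hpn⟩ := h.endx hr hV hA1 hsg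
      obtain ⟨q, hq, hqn⟩ := h.swap.endx hr.swap (x := y) (y := x + 1)
        (by obtain ⟨u, v, huv⟩ := hV; exact ⟨v, u, huv⟩) hA1 hsg
      have hsq := h.sq (M - 1)
      simp only [one_mul] at hp hpn hq hqn
      have hp' : ∀ i : ℕ, i ≤ p → H (x + 1 + 1 * (i : ℤ)) y ≤ M - 1 := by simpa using hp
      have hq' : ∀ j : ℕ, j ≤ q → H (x + 1) (y + 1 * (j : ℤ)) ≤ M - 1 := by simpa using hq
      -- left column
      have hl : ∀ j : ℕ, j ≤ q → H x (y + j) = M := by
        intro j hj
        have h2 := hsq.wall (x := x + 1) (y := y) (s := -1) (t := 1) (p := 0) (q := q) (Or.inr rfl) hsg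
          (fun i hi => by
            have : i = 0 := by omega
            subst this
            simpa using hA1) hq' (by
              have : x + 1 + -1 * (((0 : ℕ) : ℤ) + 1) = x := by
                push_cast
                ring
              rw [this]
              omega) j hj
        have e : x + 1 + -1 * (((0 : ℕ) : ℤ) + 1) = x := by
          push_cast
          ring
        rw [e, one_mul] at h2
        exact top h2
      -- upper row
      have hu : ∀ i : ℕ, i ≤ p → H (x + 1 + i) (y + (q + 1)) = M := by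
        intro i hi
        have h2 := hsq.wall' hsg hsg hp' hq' (by simpa using hqn) i hi
        rw [one_mul, one_mul] at h2
        exact top h2
      -- right column
      have hr : ∀ j : ℕ, j ≤ q → H (x + 1 + (p + 1)) (y + j) = M := by
        intro j hj
        have h2 := hsq.wall hsg hsg hp' hq' (by simpa using hpn) j hj
        rw [one_mul, one_mul] at h2
        exact top h2
      -- the corners
      have hbox := hsq.box hsg hsg hp' hq' q le_rfl
      have hcl : H x (y + (q + 1)) = M := by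
        refine top fun hc => ?_
        have h2 := hbox 0 (Nat.zero_le _)
        simp only [Nat.cast_zero, mul_zero, add_zero, one_mul] at h2
        have h3 := hsq.diag (x + 1) (y + q) (-1) 1 (Or.inr rfl) hsg h2 (by
          rw [show x + 1 + -1 = x by ring, show y + (q : ℤ) + 1 = y + (q + 1) by ring]
          exact hc)
        rw [show x + 1 + -1 = x by ring] at h3
        have := hl q le_rfl
        omega
      have hcr : H (x + 1 + (p + 1)) (y + (q + 1)) = M := by
        refine top fun hc => ?_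
        have h2 := hbox p le_rfl
        simp only [one_mul] at h2
        have h3 := hsq.diag (x + 1 + p) (y + q) 1 1 hsg hsg h2 (by
          rw [show x + 1 + (p : ℤ) + 1 = x + 1 + (p + 1) by ring,
            show y + (q : ℤ) + 1 = y + (q + 1) by ring]
          exact hc)
        rw [show x + 1 + (p : ℤ) + 1 = x + 1 + (p + 1) by ring] at h3
        have := hr q le_rfl
        omega
      -- the phase along the path
      have c1 : ∀ j : ℕ, j ≤ q → c x (y + j) = c x y := by
        intro j
        induction j with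
        | zero =>
          intro _
          simp
        | succ j ihj =>
          intro hj
          have h2 := hl (j + 1) hj
          have h3 := hl j (by omega)
          rw [show y + ((j + 1 : ℕ) : ℤ) = y + j + 1 by push_cast; ring] at h2 ⊢
          rw [sy h3 h2, ihj (by omega)]
      have c2 : c x (y + (q + 1)) = c x y := by
        have h2 := hcl
        have h3 := hl q le_rfl
        rw [show y + ((q : ℤ) + 1) = y + q + 1 by ring] at h2 ⊢
        rw [sy h3 h2, c1 q le_rfl]
      have c3 : ∀ i : ℕ, i ≤ p → c (x + 1 + i) (y + (q + 1)) = c x y := by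
        intro i
        induction i with
        | zero =>
          intro _
          have h2 := hu 0 (Nat.zero_le _)
          simp only [Nat.cast_zero, add_zero] at h2 ⊢
          rw [sx hcl h2, c2]
        | succ i ihi =>
          intro hi
          have h2 := hu (i + 1) hi
          have h3 := hu i (by omega)
          rw [show x + 1 + ((i + 1 : ℕ) : ℤ) = x + 1 + i + 1 by push_cast; ring] at h2 ⊢
          rw [sx h3 h2, ihi (by omega)]
      have c4 : c (x + 1 + (p + 1)) (y + (q + 1)) = c x y := by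
        have h2 := hcr
        have h3 := hu p le_rfl
        rw [show x + 1 + ((p : ℤ) + 1) = x + 1 + p + 1 by ring] at h2 ⊢
        rw [sx h3 h2, c3 p le_rfl]
      have c5 : ∀ j : ℕ, j ≤ q → c (x + 1 + (p + 1)) (y + j) = c (x + 1 + (p + 1)) y := by
        intro j
        induction j with
        | zero =>
          intro _
          simp
        | succ j ihj =>
          intro hj
          have h2 := hr (j + 1) hj
          have h3 := hr j (by omega)
          rw [show y + ((j + 1 : ℕ) : ℤ) = y + j + 1 by push_cast; ring] at h2 ⊢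
          rw [sy h3 h2, ihj (by omega)]
      have c6 : c (x + 1 + (p + 1)) (y + (q + 1)) = c (x + 1 + (p + 1)) y := by
        have h2 := hcr
        have h3 := hr q le_rfl
        rw [show y + ((q : ℤ) + 1) = y + q + 1 by ring] at h2 ⊢
        rw [sy h3 h2, c5 q le_rfl]
      have c7 : c (x + 1 + (p + 1)) y = c x y := c6.symm.trans c4
      have hr0 : H (x + 1 + (p + 1)) y = M := by simpa using hr 0 (Nat.zero_le _)
      -- `n` is beyond the box
      have hnp : p + 2 ≤ n := by
        by_contra hc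
        have h2 := hp (n - 1) (by omega)
        have e : x + 1 + ((n - 1 : ℕ) : ℤ) = x + n := by
          push_cast [hpos]
          ring
        rw [e] at h2
        omega
      have e : x + 1 + ((p : ℤ) + 1) + ((n - (p + 2) : ℕ) : ℤ) = x + n := by
        push_cast [hnp]
        ring
      have h3 := ih (n - (p + 2)) (by omega) (x + 1 + (p + 1)) y hr0 (by rw [e]; exact hn)
      rw [e] at h3
      rw [h3, c7]

end BMP
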